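import Pool.Agent.Helper34.FF.Goals4
import Pool.Agent.Helper34.FF.G1

/-! Packet E4 (`StmtBead`) of MP_7cb822_co. -/

set_option autoImplicit false

namespace Pool.Agent.Helper99.FF

open Finset
open scoped symmDiff Classical
open Pool.Agent.Helper34.FF
open Helper67.FF (cnt cnt_mono cnt_union mem_bdry mem_inn mem_btw)

section
variable {V F : Type} [Fintype V] [Fintype F] {T : Tri V F}

lemma cnt_compl (S : Finset F) {e : Sym2 V} (he : e ∈ T.G.edgeSet) :
    cnt T S e + cnt T Sᶜ e = 2 := by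
  obtain ⟨-, -, -, htwo, -, -, -⟩ := pAlg V F T
  have h0 : cnt T univ e = 2 := htwo e he
  rw [← h0, ← cnt_union T disjoint_compl_right, union_compl]

/-- the distances from `c q` to the arc `[0, δ]` -/
lemma bead_dist {X : Finset F} {l δ : ℕ} {c : ℤ → V} {q : ℤ} (hI : T.Iso X l c)
    (hδ : 2 * δ ≤ l) (h1 : (δ : ℤ) < q) (h2 : q < l) (j : ℕ) (hj : j ≤ δ) :
    min (T.G.dist (c q) (c 0) + j) (T.G.dist (c q) (c δ) + (δ - j)) ≤ T.G.dist (c q) (c j) := by
  have e1 := Pool.Agent.Helper7.FF.dist_int T X l c hI 0 q (by omega) (by omega)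
  have e2 := Pool.Agent.Helper7.FF.dist_int T X l c hI δ q (by omega) (by omega)
  have e3 := Pool.Agent.Helper7.FF.dist_int T X l c hI j q (by omega) (by omega)
  rw [SimpleGraph.dist_comm] at e1 e2 e3
  omega

end

theorem pf_StmtBead : StmtBead := by
  intro V F _ _ T hT P S Z D l δ c c' q q' w e hP hS hPS hD hSD hZD hδ hδl h00 h0δ hq1 hq2
    hq1' hq2' hw hw' hBad hZ
  have hl3 := hP.1.three
  obtain ⟨-, -, -, -, -, -, -, -, -, -⟩ := pEnumFacts V F T hT P l c hP.1
  set C : Finset V := (range (δ + 1)).image (fun j : ℕ => c j) ∪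
    (range (δ + 1)).image (fun j : ℕ => c' j) with hC
  have hwc : ∀ j : ℕ, j ≤ δ → w ≠ c j := by
    intro j hj h
    rw [hw] at h
    have := hP.1.inj _ _ h
    have := Int.le_of_dvd (by omega) this
    omega
  have hwc' : ∀ j : ℕ, j ≤ δ → w ≠ c' j := by
    intro j hj h
    rw [hw'] at h
    have := hS.1.inj _ _ h
    have := Int.le_of_dvd (by omega) this
    omega
  have hwC : w ∉ C := by
    rw [hC, mem_union, mem_image, mem_image]
    rintro (⟨j, hj, h⟩ | ⟨j, hj, h⟩)
    · exact hwc j (by rw [mem_range] at hj; omega) h.symm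
    · exact hwc' j (by rw [mem_range] at hj; omega) h.symm
  have hgood : Good T.G w C := by
    refine pTwoCorner V T.G w (c 0) (c δ) C δ (T.G.dist w (c 0)) (T.G.dist w (c δ))
      (fun j => c j) (fun j => c' j) hδ ?_ ?_ ?_ ?_ ?_ rfl ?_ hwC ?_
    · have h := hwc 0 (by omega)
      exact hT.conn.pos_dist_of_ne (by simpa using h)
    · exact hT.conn.pos_dist_of_ne (hwc δ le_rfl)
    · have e1 := Pool.Agent.Helper7.FF.dist_int T P l c hP 0 δ (by omega) (by omega)
      have e2 : T.G.dist (c 0) (c δ) ≤ T.G.dist (c 0) w + T.G.dist w (c δ) :=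
        hT.conn.dist_triangle
      rw [SimpleGraph.dist_comm (u := c 0) (v := w)] at e2
      omega
    · simp
    · simpa using h00
    · exact h0δ
    · intro x hx
      rw [hC, mem_union, mem_image, mem_image] at hx
      rcases hx with ⟨j, hj, h⟩ | ⟨j, hj, h⟩
      · rw [mem_range] at hj
        refine ⟨j, by omega, Or.inl h.symm, ?_⟩
        rintro t ⟨k, hk, a, ha, -⟩
        have e1 := Pool.Agent.Helper7.FF.dist_le_of_isW T.G k a w x ha
        have e2 := bead_dist hP hδl hq1 hq2 j (by omega)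
        rw [← hw] at e2
        rw [← h] at e1
        exact e2.trans (e1.trans hk)
      · rw [mem_range] at hj
        refine ⟨j, by omega, Or.inr h.symm, ?_⟩
        rintro t ⟨k, hk, a, ha, -⟩
        have e1 := Pool.Agent.Helper7.FF.dist_le_of_isW T.G k a w x ha
        have e2 := bead_dist hS hδl hq1' hq2' j (by omega)
        rw [← hw', h00, h0δ] at e2
        rw [← h] at e1
        exact e2.trans (e1.trans hk)
  -- the boundary of `Z` is in `C`
  have hVC : T.Vbd Z ⊆ C := by
    intro v hv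
    rw [Tri.Vbd, mem_filter] at hv
    obtain ⟨-, f, hf, hvf⟩ := hv
    rw [hZ, mem_symmDiff] at hf
    have hmem : ∀ (g : ℤ → V), f ∈ arcE g 0 δ → ∃ j : ℕ, j ≤ δ ∧ v = g j := by
      intro g hg
      rw [arcE, mem_image] at hg
      obtain ⟨t, ht, rfl⟩ := hg
      rw [mem_Ico] at ht
      rw [Sym2.mem_iff] at hvf
      rcases hvf with h | h
      · refine ⟨t.toNat, by omega, ?_⟩
        rw [Int.toNat_of_nonneg ht.1]; exact h
      · refine ⟨(t + 1).toNat, by omega, ?_⟩
        rw [Int.toNat_of_nonneg (by omega)]; exact h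
    rw [hC, mem_union, mem_image, mem_image]
    rcases hf with ⟨hf, -⟩ | ⟨hf, -⟩
    · obtain ⟨j, hj, h⟩ := hmem c' hf
      exact Or.inr ⟨j, by rw [mem_range]; omega, h.symm⟩
    · obtain ⟨j, hj, h⟩ := hmem c hf
      exact Or.inl ⟨j, by rw [mem_range]; omega, h.symm⟩
  obtain ⟨-, -, -, t4, t5⟩ := pTri V F T hT
  obtain ⟨bS, -, -, vS, -, -, -⟩ := pEnumFacts V F T hT S l c' hS.1
  have hwZ : w ∉ T.Vin Z := by
    intro hwin
    have h1 : w ∈ T.Vbd S := (vS w).2 ⟨q', hw'⟩
    obtain ⟨-, f, hfS, hwf⟩ := t4 S w h1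
    have hcut : ∀ g ∈ T.bdry Z, g ∉ T.inn Sᶜ := by
      intro g hg hg'
      rw [mem_inn] at hg'
      have h2 := cnt_compl (T := T) S hg'.1
      rw [hZ, mem_symmDiff] at hg
      rcases hg with ⟨hg, -⟩ | ⟨hg, -⟩
      · have h3 := (mem_bdry T).1 (Helper52FF.arc_sub hS.1 _ _ hg)
        omega
      · have h3 := (mem_bdry T).1 (Helper52FF.arc_sub hP.1 _ _ hg)
        have h4 := cnt_mono T hPS g
        omega
    obtain ⟨d, hd⟩ := hD
    rcases pNoCut V F T Sᶜ Z bS.2 hcut with h | h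
    · have h2 : d ∈ Sᶜ := by
        rw [mem_compl]
        exact fun h' => disjoint_left.1 hSD h' hd
      exact disjoint_left.1 hZD (h h2) hd
    · have h2 : f ∈ Sᶜ := by rw [mem_compl]; exact hfS
      rw [Tri.Vin, mem_filter] at hwin
      exact disjoint_left.1 h h2 (hwin.2 f hwf)
  refine hBad C hgood (T.Vin Z) ?_
  intro v hv k a ha
  by_contra hcon
  push Not at hcon
  apply hwZ
  refine t5 Z k (fun t => a (k - t)) v w (Pool.Agent.Helper65.FF.rev_isW ha) ?_ hv
  intro i hi hh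
  exact hcon (k - i) (by omega) (hVC hh)

end Pool.Agent.Helper99.FF
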