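import Pool.Agent.Helper34.FF.Goals3
import Pool.Agent.Helper34.FF.G1

/-! Packet C6 (`StmtPairGeo`) of MP_7cb822_co. -/

set_option autoImplicit false

namespace Pool.Agent.Helper99.FF

open Finset
open scoped symmDiff Classical
open Pool.Agent.Helper34.FF
open Helper67.FF (cnt cnt_mono cnt_union mem_bdry mem_inn mem_btw)

section
variable {V F : Type} [Fintype V] [Fintype F] {T : Tri V F}

lemma cnt4 (A B : Finset F) {e : Sym2 V} (he : e ∈ T.G.edgeSet) :
    cnt T (A ∩ B) e + cnt T (A \ B) e + cnt T (B \ A) e + cnt T (A ∪ B)ᶜ e = 2 ∧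
    cnt T A e = cnt T (A ∩ B) e + cnt T (A \ B) e ∧
    cnt T B e = cnt T (A ∩ B) e + cnt T (B \ A) e ∧
    cnt T (A ∪ B) e = cnt T (A ∩ B) e + cnt T (A \ B) e + cnt T (B \ A) e := by
  obtain ⟨-, -, -, htwo, -, -, -⟩ := pAlg V F T
  have h0 : cnt T univ e = 2 := htwo e he
  have h1 : (univ : Finset F) = (((A ∩ B) ∪ (A \ B)) ∪ (B \ A)) ∪ (A ∪ B)ᶜ := by
    ext f
    simp only [mem_univ, mem_union, mem_inter, mem_sdiff, mem_compl, true_iff]
    tauto
  have hA : A = (A ∩ B) ∪ (A \ B) := by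
    ext f
    simp only [mem_union, mem_inter, mem_sdiff]
    tauto
  have hB : B = (A ∩ B) ∪ (B \ A) := by
    ext f
    simp only [mem_union, mem_inter, mem_sdiff]
    tauto
  have hU : A ∪ B = ((A ∩ B) ∪ (A \ B)) ∪ (B \ A) := by
    ext f
    simp only [mem_union, mem_inter, mem_sdiff]
    tauto
  have d1 : Disjoint (A ∩ B) (A \ B) := by
    rw [disjoint_left]
    intro f hf hf'
    simp only [mem_inter, mem_sdiff] at hf hf'
    tauto
  have d2 : Disjoint (A ∩ B) (B \ A) := by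
    rw [disjoint_left]
    intro f hf hf'
    simp only [mem_inter, mem_sdiff] at hf hf'
    tauto
  have d3 : Disjoint ((A ∩ B) ∪ (A \ B)) (B \ A) := by
    rw [disjoint_left]
    intro f hf hf'
    simp only [mem_union, mem_inter, mem_sdiff] at hf hf'
    tauto
  have d4 : Disjoint (((A ∩ B) ∪ (A \ B)) ∪ (B \ A)) (A ∪ B)ᶜ := by
    rw [disjoint_left]
    intro f hf hf'
    simp only [mem_union, mem_inter, mem_sdiff, mem_compl] at hf hf'
    tauto
  refine ⟨?_, ?_, ?_, ?_⟩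
  · rw [← h0]
    conv_rhs => rw [h1]
    rw [cnt_union T d4, cnt_union T d3, cnt_union T d1]
  · conv_lhs => rw [hA]
    rw [cnt_union T d1]
  · conv_lhs => rw [hB]
    rw [cnt_union T d2]
  · conv_lhs => rw [hU]
    rw [cnt_union T d3, cnt_union T d1]

lemma len_sum (S : Finset F) : T.len S =
    ∑ e ∈ univ.filter (fun e => e ∈ T.G.edgeSet), if cnt T S e = 1 then 1 else 0 := by
  rw [← card_filter, filter_filter, Tri.len]
  congr 1

lemma iso_shift {S : Finset F} {l : ℕ} {c : ℤ → V} (hT : T.Sphere) (h : T.Iso S l c) (s : ℤ) :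
    T.Iso S l (fun i => c (i + s)) := by
  obtain ⟨-, -, -, -, -, -, -, -, -, hs⟩ := pEnumFacts V F T hT S l c h.1
  refine ⟨hs s, ?_⟩
  intro i j hij hjl
  have := Pool.Agent.Helper7.FF.dist_int T S l c h (i + s) (j + s) (by omega) (by omega)
  rw [this]
  omega

lemma iso_rev {S : Finset F} {l : ℕ} {c : ℤ → V} (hT : T.Sphere) (h : T.Iso S l c) (s : ℤ) :
    T.Iso S l (fun i => c (s - i)) := by
  obtain ⟨-, -, -, -, -, -, -, -, hr, -⟩ := pEnumFacts V F T hT S l c h.1
  obtain ⟨-, -, -, -, -, -, -, -, -, hs⟩ := pEnumFacts V F T hT S l _ hr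
  have h1 := hs (-s)
  have h2 : (fun i : ℤ => c (-(i + -s))) = fun i => c (s - i) := by
    funext i
    congr 1
    ring
  refine ⟨by rw [← h2]; exact h1, ?_⟩
  intro i j hij hjl
  have := Pool.Agent.Helper7.FF.dist_int T S l c h (s - j) (s - i) (by omega) (by omega)
  rw [SimpleGraph.dist_comm, this]
  omega

lemma dc_of_iso {S : Finset F} {l : ℕ} {c : ℤ → V} (hT : T.Sphere) (h : T.Iso S l c) :
    T.Bond S := (pEnumFacts V F T hT S l c h.1).1

/-- the arc structure of `A \ B` -/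
lemma half (hT : T.Sphere) {A B : Finset F} {l : ℕ} {c : ℤ → V} (hA : T.Bond A) (hB : T.Bond B)
    (hO : T.Bond (A ∪ B)ᶜ) (hP : T.Iso (A \ B) l c) (hZ : (A ∩ B).Nonempty)
    (hz : T.btw (A ∩ B) (A ∪ B)ᶜ = ∅) :
    ∃ (h : ℕ) (c₁ : ℤ → V), T.Iso (A \ B) l c₁ ∧ 0 < h ∧ h < l ∧
      T.btw (A \ B) B = arcE c₁ 0 h ∧ T.btw (A \ B) (A ∪ B)ᶜ = arcE c₁ h l := by
  have hPb := dc_of_iso hT hP
  have hz' : ∀ e ∈ T.G.edgeSet, ¬ (cnt T (A ∩ B) e = 1 ∧ cnt T (A ∪ B)ᶜ e = 1) := by
    intro e he hh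
    have : e ∈ T.btw (A ∩ B) (A ∪ B)ᶜ := (mem_btw T).2 ⟨he, hh⟩
    rw [hz] at this
    simp at this
  -- `btw P B` is nonempty
  have hne1 : (T.btw (A \ B) B).Nonempty := by
    rw [nonempty_iff_ne_empty]
    intro hemp
    have hsub : T.bdry (A \ B) ⊆ T.bdry A := by
      intro e he
      rw [mem_bdry] at he ⊢
      obtain ⟨k1, k2, k3, k4⟩ := cnt4 (T := T) A B he.1
      have h1 : ¬ (cnt T (A \ B) e = 1 ∧ cnt T B e = 1) := by
        intro hh
        have : e ∈ T.btw (A \ B) B := (mem_btw T).2 ⟨he.1, hh⟩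
        rw [hemp] at this
        simp at this
      refine ⟨he.1, ?_⟩
      have h2 := he.2
      by_contra hc
      apply h1
      have h3 := hz' e he.1
      omega
    rcases hA.1.2 (A \ B) sdiff_subset hsub with h | h
    · exact hPb.1.1.ne_empty h
    · obtain ⟨f, hf⟩ := hZ
      rw [mem_inter] at hf
      have : f ∈ A \ B := by rw [h]; exact hf.1
      exact (mem_sdiff.1 this).2 hf.2
  have hne2 : (T.btw (A \ B) (A ∪ B)ᶜ).Nonempty := by
    rw [nonempty_iff_ne_empty]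
    intro hemp
    have hsub : T.bdry (A \ B) ⊆ T.bdry B := by
      intro e he
      rw [mem_bdry] at he ⊢
      obtain ⟨k1, k2, k3, k4⟩ := cnt4 (T := T) A B he.1
      have h1 : ¬ (cnt T (A \ B) e = 1 ∧ cnt T (A ∪ B)ᶜ e = 1) := by
        intro hh
        have : e ∈ T.btw (A \ B) (A ∪ B)ᶜ := (mem_btw T).2 ⟨he.1, hh⟩
        rw [hemp] at this
        simp at this
      refine ⟨he.1, ?_⟩
      have h2 := he.2
      by_contra hc
      apply h1
      omega
    obtain ⟨hadd, hcompl, hev, -⟩ := pAlg V F T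
    obtain ⟨-, hB2⟩ := pBond V F T hT
    rcases (hB2 B hB).2 _ hsub (hev _) with h | h
    · have := (hB2 _ hPb).1
      rw [h] at this
      simp at this
    · have h1 : T.bdry ((A \ B) ∆ B) = ∅ := by
        rw [hadd, h]
        simp
      rcases hT.dual _ h1 with h2 | h2
      · have h3 : (A \ B) = B := by
          rw [← symmDiff_eq_bot]
          exact h2
        obtain ⟨f, hf⟩ := hPb.1.1
        have hf' := hf
        rw [h3] at hf'
        exact (mem_sdiff.1 hf).2 hf'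
      · obtain ⟨f, hf⟩ := hO.1.1
        have : f ∈ (A \ B) ∆ B := by rw [h2]; exact mem_univ _
        rw [mem_compl, mem_union] at hf
        rw [mem_symmDiff, mem_sdiff] at this
        tauto
  have dPB : Disjoint (A \ B) B := sdiff_disjoint
  have dPO : Disjoint (A \ B) (A ∪ B)ᶜ := by
    rw [disjoint_left]
    intro f hf hf'
    simp only [mem_union, mem_sdiff, mem_compl] at hf hf'
    tauto
  have dBO : Disjoint B (A ∪ B)ᶜ := by
    rw [disjoint_left]
    intro f hf hf'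
    simp only [mem_union, mem_compl] at hf hf'
    tauto
  have hun : (A \ B) ∪ B ∪ (A ∪ B)ᶜ = univ := by
    ext f
    simp only [mem_univ, mem_union, mem_sdiff, mem_compl, iff_true]
    tauto
  obtain ⟨i, j, hij, hjl, e1, e2⟩ := pThree V F T hT (A \ B) B (A ∪ B)ᶜ hPb hB hO dPB dPO dBO hun
    hne1 hne2 l c hP.1
  refine ⟨j - i, fun t => c (t + i), iso_shift hT hP i, by omega, by omega, ?_, ?_⟩
  · rw [e1]
    ext e
    simp only [arcE, mem_image, mem_Ico]
    constructor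
    · rintro ⟨t, ht, rfl⟩
      refine ⟨t - i, by omega, ?_⟩
      rw [show t - i + i = t by ring, show t - i + 1 + i = t + 1 by ring]
    · rintro ⟨t, ht, rfl⟩
      refine ⟨t + i, by omega, ?_⟩
      rw [show t + i + 1 = t + 1 + i by ring]
  · rw [e2]
    ext e
    simp only [arcE, mem_image, mem_Ico]
    constructor
    · rintro ⟨t, ht, rfl⟩
      refine ⟨t - i, by omega, ?_⟩
      rw [show t - i + i = t by ring, show t - i + 1 + i = t + 1 by ring]
    · rintro ⟨t, ht, rfl⟩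
      refine ⟨t + i, by omega, ?_⟩
      rw [show t + i + 1 = t + 1 + i by ring]

/-- the odd vertices of the arc from `h` to `l` -/
lemma arc_odd (hT : T.Sphere) {S : Finset F} {l h : ℕ} {c : ℤ → V} (hc : T.Enum S l c)
    (h0 : 0 < h) (h1 : h < l) (v : V) :
    Odd ((arcE c h l).filter fun e => v ∈ e).card ↔ (v = c h ∨ v = c 0) := by
  obtain ⟨-, -, -, -, -, -, hw, -⟩ := pEnumFacts V F T hT S l c hc
  obtain ⟨w1, w2, w3⟩ := hw h l (by omega) (by omega)
  obtain ⟨-, hpar⟩ := pPar V T.G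
  obtain ⟨-, hp⟩ := hpar _ _ _ _ w1 w2
  rw [← w3, hp v]
  have hl : c l = c 0 := by
    have := hc.per 0
    rwa [zero_add] at this
  rw [hl]
  have hne : c h ≠ c 0 := by
    intro hh
    have := hc.inj _ _ hh
    have := Int.le_of_dvd (by omega) this
    omega
  simp [hne]

/-- no part of the outside can be cut off (the key step for the dual connectivity) -/
lemma key_out {A B K Bi Bj Bk : Finset F} {l : ℕ}
    (hiA : Bi ⊆ A) (hjB : Bj ⊆ B) (hAj : Disjoint A Bj) (hAk : Disjoint A Bk)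
    (hBi : Disjoint B Bi) (hBk : Disjoint B Bk) (hlA : T.len A = l) (hlB : T.len B = l)
    (hz : T.btw (A ∩ B) (A ∪ B)ᶜ = ∅)
    (sepA : ∀ Y, Bi ⊆ Y → Disjoint Y Bj → Disjoint Y Bk → l ≤ T.len Y)
    (sepB : ∀ Y, Bj ⊆ Y → Disjoint Y Bi → Disjoint Y Bk → l ≤ T.len Y)
    (hmax : ∀ Y, Bi ⊆ Y → Disjoint Y Bj → Disjoint Y Bk → T.len Y = l → Y ⊆ A)
    (hK : K ⊆ (A ∪ B)ᶜ) (hbd : T.bdry K ⊆ T.bdry (A ∪ B)ᶜ) (hne : K.Nonempty)
    (hKk : Disjoint K Bk) : False := by
  have hKA : ∀ f ∈ K, f ∉ A ∧ f ∉ B := by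
    intro f hf
    have := hK hf
    rw [mem_compl, mem_union] at this
    tauto
  have dKA : Disjoint A K := by
    rw [disjoint_left]
    intro f hf hf'
    exact (hKA f hf').1 hf
  have dKB : Disjoint B K := by
    rw [disjoint_left]
    intro f hf hf'
    exact (hKA f hf').2 hf
  have dKi : Disjoint K Bi := by
    rw [disjoint_left]
    intro f hf hf'
    exact (hKA f hf).1 (hiA hf')
  have dKj : Disjoint K Bj := by
    rw [disjoint_left]
    intro f hf hf'
    exact (hKA f hf).2 (hjB hf')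
  have hz' : ∀ e ∈ T.G.edgeSet, ¬ (cnt T (A ∩ B) e = 1 ∧ cnt T (A ∪ B)ᶜ e = 1) := by
    intro e he hh
    have : e ∈ T.btw (A ∩ B) (A ∪ B)ᶜ := (mem_btw T).2 ⟨he, hh⟩
    rw [hz] at this
    simp at this
  have l1 : l ≤ T.len (A ∪ K) :=
    sepA _ (hiA.trans subset_union_left) (disjoint_union_left.2 ⟨hAj, dKj⟩)
      (disjoint_union_left.2 ⟨hAk, hKk⟩)
  have l2 : l ≤ T.len (B ∪ K) :=
    sepB _ (hjB.trans subset_union_left) (disjoint_union_left.2 ⟨hBi, dKi⟩)
      (disjoint_union_left.2 ⟨hBk, hKk⟩)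
  have hsum : T.len (A ∪ K) + T.len (B ∪ K) = T.len A + T.len B := by
    rw [len_sum, len_sum, len_sum, len_sum, ← sum_add_distrib, ← sum_add_distrib]
    refine sum_congr rfl ?_
    intro e he
    rw [mem_filter] at he
    obtain ⟨k1, k2, k3, k4⟩ := cnt4 (T := T) A B he.2
    have k5 := cnt_union T dKA e
    have k6 := cnt_union T dKB e
    have k7 := cnt_mono T hK e
    have k8 := hz' e he.2
    have k9 : cnt T K e = 1 → cnt T (A ∪ B)ᶜ e = 1 := by
      intro h
      exact ((mem_bdry T).1 (hbd ((mem_bdry T).2 ⟨he.2, h⟩))).2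
    split_ifs <;> omega
  have h3 : A ∪ K ⊆ A := hmax _ (hiA.trans subset_union_left) (disjoint_union_left.2 ⟨hAj, dKj⟩)
      (disjoint_union_left.2 ⟨hAk, hKk⟩) (by omega)
  obtain ⟨f, hf⟩ := hne
  exact (hKA f hf).1 (h3 (mem_union_right _ hf))

end

theorem pf_StmtPairGeo : StmtPairGeo := by
  intro V F _ _ T hT e l Bl i j k A B hBl hij hik hjk hA hB hZ
  have hall : ∀ m : Fin 3, m = i ∨ m = j ∨ m = k := by
    clear hA hB
    revert i j k
    decide
  obtain ⟨⟨hiA, hAd, hlA⟩, hmA⟩ := hA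
  obtain ⟨⟨hjB, hBd, hlB⟩, hmB⟩ := hB
  have hAj := hAd j hij.symm
  have hAk := hAd k hik.symm
  have hBi := hBd i hij
  have hBk := hBd k hjk.symm
  have dij := hBl.disj i j hij
  have dik := hBl.disj i k hik
  have djk := hBl.disj j k hjk
  have bond : ∀ m, T.Bond (Bl m) := fun m => by
    obtain ⟨c, hc⟩ := hBl.iso m
    exact dc_of_iso hT hc
  have hni := (bond i).1.1
  have hnj := (bond j).1.1
  have hnk := (bond k).1.1
  -- classification of sets
  have cls : ∀ Y, (Bl i ⊆ Y ∨ Disjoint Y (Bl i)) → (Bl j ⊆ Y ∨ Disjoint Y (Bl j)) →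
      (Bl k ⊆ Y ∨ Disjoint Y (Bl k)) → ∀ m, Bl m ⊆ Y ∨ Disjoint Y (Bl m) := by
    intro Y h1 h2 h3 m
    rcases hall m with h | h | h <;> subst h <;> assumption
  have sepA : ∀ Y, Bl i ⊆ Y → Disjoint Y (Bl j) → Disjoint Y (Bl k) → l ≤ T.len Y := by
    intro Y h1 h2 h3
    exact hBl.sep Y (cls Y (Or.inl h1) (Or.inr h2) (Or.inr h3)) ⟨i, h1⟩ ⟨j, h2⟩
  have sepB : ∀ Y, Bl j ⊆ Y → Disjoint Y (Bl i) → Disjoint Y (Bl k) → l ≤ T.len Y := by
    intro Y h1 h2 h3
    exact hBl.sep Y (cls Y (Or.inr h2) (Or.inl h1) (Or.inr h3)) ⟨j, h1⟩ ⟨i, h2⟩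
  have cutA : ∀ Y, Bl i ⊆ Y → Disjoint Y (Bl j) → Disjoint Y (Bl k) → T.len Y = l →
      ∃ c, T.Iso Y l c := by
    intro Y h1 h2 h3 h4
    exact hBl.cut Y (cls Y (Or.inl h1) (Or.inr h2) (Or.inr h3)) ⟨i, h1⟩ ⟨j, h2⟩ h4
  have cutB : ∀ Y, Bl j ⊆ Y → Disjoint Y (Bl i) → Disjoint Y (Bl k) → T.len Y = l →
      ∃ c, T.Iso Y l c := by
    intro Y h1 h2 h3 h4
    exact hBl.cut Y (cls Y (Or.inr h2) (Or.inl h1) (Or.inr h3)) ⟨j, h1⟩ ⟨i, h2⟩ h4
  -- the differences
  have hiP : Bl i ⊆ A \ B := by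
    intro f hf
    rw [mem_sdiff]
    exact ⟨hiA hf, fun h => disjoint_left.1 hBi h hf⟩
  have hjP : Bl j ⊆ B \ A := by
    intro f hf
    rw [mem_sdiff]
    exact ⟨hjB hf, fun h => disjoint_left.1 hAj h hf⟩
  have dP1j : Disjoint (A \ B) (Bl j) := disjoint_of_subset_left sdiff_subset hAj
  have dP1k : Disjoint (A \ B) (Bl k) := disjoint_of_subset_left sdiff_subset hAk
  have dP2i : Disjoint (B \ A) (Bl i) := disjoint_of_subset_left sdiff_subset hBi
  have dP2k : Disjoint (B \ A) (Bl k) := disjoint_of_subset_left sdiff_subset hBk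
  have q1 := sepA _ hiP dP1j dP1k
  have q2 := sepB _ hjP dP2i dP2k
  obtain ⟨-, hsub⟩ := pSub V F T A B (fun _ => True)
  simp only [filter_true] at hsub
  change T.len (A \ B) + T.len (B \ A) + 2 * (T.btw (A ∩ B) (A ∪ B)ᶜ).card =
    T.len A + T.len B at hsub
  have hz : T.btw (A ∩ B) (A ∪ B)ᶜ = ∅ := by
    rw [← card_eq_zero]
    omega
  have lP1 : T.len (A \ B) = l := by omega
  have lP2 : T.len (B \ A) = l := by omega
  obtain ⟨cP1, hP1⟩ := cutA _ hiP dP1j dP1k lP1
  obtain ⟨cP2, hP2⟩ := cutB _ hjP dP2i dP2k lP2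
  obtain ⟨cA, hcA⟩ := cutA _ hiA hAj hAk hlA
  obtain ⟨cB, hcB⟩ := cutB _ hjB hBi hBk hlB
  have bA := dc_of_iso hT hcA
  have bB := dc_of_iso hT hcB
  have hUk : Disjoint (A ∪ B) (Bl k) := disjoint_union_left.2 ⟨hAk, hBk⟩
  have lU : l ≤ T.len (A ∪ B) :=
    hBl.sep _ (cls _ (Or.inl (hiA.trans subset_union_left))
      (Or.inl (hjB.trans subset_union_right)) (Or.inr hUk)) ⟨i, hiA.trans subset_union_left⟩
      ⟨k, hUk⟩
  obtain ⟨hadd, hcompl, hev, htwo, hcase, hdisj, -⟩ := pAlg V F T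
  have hkO : Bl k ⊆ (A ∪ B)ᶜ := by
    intro f hf
    rw [mem_compl]
    intro h
    exact disjoint_left.1 hUk h hf
  -- the outside is dual-connected
  have hmax : ∀ Y, Bl i ⊆ Y → Disjoint Y (Bl j) → Disjoint Y (Bl k) → T.len Y = l → Y ⊆ A := by
    intro Y h1 h2 h3 h4
    refine hmA Y ⟨h1, ?_, h4⟩
    intro m hm
    rcases hall m with h | h | h
    · exact absurd h hm
    · subst h; exact h2
    · subst h; exact h3
  have hOdc : T.DC (A ∪ B)ᶜ := by
    refine ⟨hnk.mono hkO, ?_⟩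
    intro X hX hbX
    by_contra hcon
    push Not at hcon
    obtain ⟨c1, c2⟩ := hcon
    have hcutk : ∀ e ∈ T.bdry X, e ∉ T.inn (Bl k) := by
      intro e he hh
      have h1 := (mem_bdry T).1 (hbX he)
      have h2 := (mem_inn T).1 hh
      have h3 := cnt_mono T hkO e
      omega
    rcases pNoCut V F T (Bl k) X (bond k).1 hcutk with h | h
    · -- use the rest
      have h1 : (A ∪ B)ᶜ \ X = (A ∪ B)ᶜ ∆ X := by
        ext f
        rw [mem_symmDiff, mem_sdiff]
        constructor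
        · intro h; exact Or.inl h
        · rintro (h | h)
          · exact h
          · exact absurd (hX h.1) h.2
      have h2 : T.bdry ((A ∪ B)ᶜ \ X) ⊆ T.bdry (A ∪ B)ᶜ := by
        rw [h1, hadd]
        intro e he
        rw [mem_symmDiff] at he
        rcases he with he | he
        · exact he.1
        · exact hbX he.1
      refine key_out hiA hjB hAj hAk hBi hBk hlA hlB hz sepA sepB hmax
        (K := (A ∪ B)ᶜ \ X) sdiff_subset h2 ?_ ?_
      · rw [sdiff_nonempty]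
        intro h3
        exact c2 (Subset.antisymm hX h3)
      · rw [disjoint_left]
        intro f hf hf'
        exact (mem_sdiff.1 hf).2 (h hf')
    · exact key_out hiA hjB hAj hAk hBi hBk hlA hlB hz sepA sepB hmax hX hbX
        c1 h.symm
  -- the union is dual-connected
  have hUdc : T.DC (A ∪ B) := by
    refine ⟨hni.mono (hiA.trans subset_union_left), ?_⟩
    intro X hX hbX
    have hcA' : ∀ e ∈ T.bdry X, e ∉ T.inn A := by
      intro e he hh
      have h1 := (mem_bdry T).1 (hbX he)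
      have h2 := (mem_inn T).1 hh
      have h3 := cnt_mono T (subset_union_left : A ⊆ A ∪ B) e
      omega
    have hcB' : ∀ e ∈ T.bdry X, e ∉ T.inn B := by
      intro e he hh
      have h1 := (mem_bdry T).1 (hbX he)
      have h2 := (mem_inn T).1 hh
      have h3 := cnt_mono T (subset_union_right : B ⊆ A ∪ B) e
      omega
    obtain ⟨f, hf⟩ := hZ
    rw [mem_inter] at hf
    rcases pNoCut V F T A X bA.1 hcA' with h | h
    · rcases pNoCut V F T B X bB.1 hcB' with h' | h'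
      · right
        exact Subset.antisymm hX (union_subset h h')
      · exact absurd (h hf.1) (disjoint_left.1 h' hf.2)
    · rcases pNoCut V F T B X bB.1 hcB' with h' | h'
      · exact absurd (h' hf.2) (disjoint_left.1 h hf.1)
      · left
        rw [eq_empty_iff_forall_notMem]
        intro g hg
        have := hX hg
        rw [mem_union] at this
        rcases this with h1 | h1
        · exact disjoint_left.1 h h1 hg
        · exact disjoint_left.1 h' h1 hg
  have bO : T.Bond (A ∪ B)ᶜ := ⟨hOdc, by rw [compl_compl]; exact hUdc⟩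
  -- arcs
  obtain ⟨h1, c1, I1, p1, p1', a1, o1⟩ := half hT bA bB bO hP1 hZ hz
  have hz2 : T.btw (B ∩ A) (B ∪ A)ᶜ = ∅ := by rw [inter_comm, union_comm]; exact hz
  obtain ⟨h2, c2, I2, p2, p2', a2, o2⟩ := half hT bB bA (by rw [union_comm]; exact bO) hP2
    (by rw [inter_comm]; exact hZ) hz2
  rw [union_comm B A] at o2
  obtain ⟨-, -, -, -, -, ac1, -⟩ := pEnumFacts V F T hT _ _ _ I1.1
  obtain ⟨-, -, -, -, -, ac2, -⟩ := pEnumFacts V F T hT _ _ _ I2.1
  have hz' : ∀ e ∈ T.G.edgeSet, ¬ (cnt T (A ∩ B) e = 1 ∧ cnt T (A ∪ B)ᶜ e = 1) := by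
    intro e he hh
    have : e ∈ T.btw (A ∩ B) (A ∪ B)ᶜ := (mem_btw T).2 ⟨he, hh⟩
    rw [hz] at this
    simp at this
  -- counting
  have hbA : T.bdry A = T.btw (B \ A) A ∪ T.btw (A \ B) (A ∪ B)ᶜ := by
    ext e
    rw [mem_union, mem_bdry, mem_btw, mem_btw]
    by_cases he : e ∈ T.G.edgeSet
    · obtain ⟨k1, k2, k3, k4⟩ := cnt4 (T := T) A B he
      have := hz' e he
      constructor
      · intro h; 
        by_cases h' : cnt T (B \ A) e = 1
        · left; exact ⟨he, h', h.2⟩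
        · right; refine ⟨he, ?_, ?_⟩ <;> omega
      · rintro (⟨_, h, h'⟩ | ⟨_, h, h'⟩)
        · exact ⟨he, h'⟩
        · exact ⟨he, by omega⟩
    · simp [he]
  have dA : Disjoint (T.btw (B \ A) A) (T.btw (A \ B) (A ∪ B)ᶜ) := by
    rw [disjoint_left]
    intro e he he'
    rw [mem_btw] at he he'
    obtain ⟨k1, k2, k3, k4⟩ := cnt4 (T := T) A B he.1
    omega
  have hbU : T.bdry (A ∪ B) = T.btw (A \ B) (A ∪ B)ᶜ ∪ T.btw (B \ A) (A ∪ B)ᶜ := by
    ext e
    rw [mem_union, mem_bdry, mem_btw, mem_btw]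
    by_cases he : e ∈ T.G.edgeSet
    · obtain ⟨k1, k2, k3, k4⟩ := cnt4 (T := T) A B he
      have := hz' e he
      constructor
      · intro h; 
        by_cases h' : cnt T (B \ A) e = 1
        · right; exact ⟨he, h', by omega⟩
        · left; refine ⟨he, ?_, ?_⟩ <;> omega
      · rintro (⟨_, h, h'⟩ | ⟨_, h, h'⟩)
        · exact ⟨he, by omega⟩
        · exact ⟨he, by omega⟩
    · simp [he]
  have dU : Disjoint (T.btw (A \ B) (A ∪ B)ᶜ) (T.btw (B \ A) (A ∪ B)ᶜ) := by
    rw [disjoint_left]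
    intro e he he'
    rw [mem_btw] at he he'
    obtain ⟨k1, k2, k3, k4⟩ := cnt4 (T := T) A B he.1
    omega
  have n1 : (T.btw (A \ B) (A ∪ B)ᶜ).card = l - h1 := by
    rw [o1, (ac1 h1 l (by omega) (by omega)).1]; omega
  have n2 : (T.btw (B \ A) (A ∪ B)ᶜ).card = l - h2 := by
    rw [o2, (ac2 h2 l (by omega) (by omega)).1]; omega
  have n3 : (T.btw (B \ A) A).card = h2 := by
    rw [a2]
    have := (ac2 0 h2 (by omega) (by omega)).1
    rw [this]; omega
  have e1 : l = h2 + (l - h1) := by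
    have : T.len A = h2 + (l - h1) := by
      rw [Tri.len, hbA, card_union_of_disjoint dA, n1, n3]
    omega
  have e2 : l ≤ (l - h1) + (l - h2) := by
    have : T.len (A ∪ B) = (l - h1) + (l - h2) := by
      rw [Tri.len, hbU, card_union_of_disjoint dU, n1, n2]
    omega
  have hh : h1 = h2 := by omega
  subst hh
  -- ends
  have hends : ∀ v, (v = c1 h1 ∨ v = c1 0) ↔ (v = c2 h1 ∨ v = c2 0) := by
    intro v
    rw [← arc_odd hT I1.1 p1 p1' v, ← arc_odd hT I2.1 p2 p2' v]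
    have h5 := hev (A ∪ B) v
    rw [hbU, filter_union, card_union_of_disjoint (disjoint_filter_filter dU), o1, o2,
      Nat.even_add] at h5
    rw [← Nat.not_even_iff_odd, ← Nat.not_even_iff_odd, h5]
  have hne : ∀ {S : Finset F} {c : ℤ → V}, T.Enum S l c → c h1 ≠ c 0 := by
    intro S c hc hh
    have := hc.inj _ _ hh
    have := Int.le_of_dvd (by omega) this
    omega
  have hc1 := hne I1.1
  have hc2 := hne I2.1
  rcases (hends (c1 0)).1 (Or.inr rfl) with hcase1 | hcase1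
  · -- reverse the second enumeration
    have hcase2 : c1 h1 = c2 0 := by
      rcases (hends (c1 h1)).1 (Or.inl rfl) with h | h
      · exact absurd (h.trans hcase1.symm) hc1
      · exact h
    refine ⟨h1, c1, fun t => c2 (h1 - t), bA, bB, bO, I1, iso_rev hT I2 h1, p1, by omega, ?_, ?_,
      a1, o1, ?_, ?_, hz⟩
    · rw [hcase1]; simp
    · rw [hcase2]; simp
    · rw [a2]
      ext e
      simp only [arcE, mem_image, mem_Ico]
      constructor
      · rintro ⟨t, ht, rfl⟩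
        refine ⟨h1 - t - 1, by omega, ?_⟩
        rw [show (h1 : ℤ) - (h1 - t - 1) = t + 1 by ring,
          show (h1 : ℤ) - (h1 - t - 1 + 1) = t by ring]
        exact Sym2.eq_swap
      · rintro ⟨t, ht, rfl⟩
        refine ⟨h1 - t - 1, by omega, ?_⟩
        rw [show (h1 : ℤ) - t - 1 + 1 = h1 - t by ring,
          show (h1 : ℤ) - (t + 1) = h1 - t - 1 by ring]
        exact Sym2.eq_swap
    · rw [o2]
      have hper : ∀ t : ℤ, c2 (t + l) = c2 t := I2.1.per
      ext e
      simp only [arcE, mem_image, mem_Ico]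
      constructor
      · rintro ⟨t, ht, rfl⟩
        refine ⟨h1 + l - t - 1, by omega, ?_⟩
        rw [show (h1 : ℤ) - (h1 + l - t - 1) = (t + 1) + -1 * l by ring,
          show (h1 : ℤ) - (h1 + l - t - 1 + 1) = t + -1 * l by ring,
          Helper52FF.per_mul I2.1, Helper52FF.per_mul I2.1]
        exact Sym2.eq_swap
      · rintro ⟨t, ht, rfl⟩
        refine ⟨h1 + l - t - 1, by omega, ?_⟩
        rw [show (h1 : ℤ) + l - t - 1 + 1 = (h1 - t) + 1 * l by ring,
          show (h1 : ℤ) + l - t - 1 = (h1 - (t + 1)) + 1 * l by ring,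
          Helper52FF.per_mul I2.1, Helper52FF.per_mul I2.1]
        exact Sym2.eq_swap
  · have hcase2 : c1 h1 = c2 h1 := by
      rcases (hends (c1 h1)).1 (Or.inl rfl) with h | h
      · exact h
      · exact absurd (h.trans hcase1.symm) hc1
    exact ⟨h1, c1, c2, bA, bB, bO, I1, I2, p1, by omega, hcase1, hcase2, a1, o1, a2, o2, hz⟩

end Pool.Agent.Helper99.FF
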